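import Pool.Agent.helper76.DP.Spec
import Pool.Agent.helper19.FR.SPE
import Pool.Agent.helper29.FR.BES

/-!
# Project DP (MP_bf63dc_nt), row `dp:CORE`
-/

set_option autoImplicit false

namespace Pool.Agent.DP

open Finset
open Pool.Agent.FR (mean Eig)

theorem CORE_add {α : Type} [Fintype α] (f g : α → ℝ) : mean (fun x => f x + g x) = mean f + mean g := by
  unfold Pool.Agent.FR.mean
  rw [Finset.sum_add_distrib, add_div]

theorem CORE_sub {α : Type} [Fintype α] (f g : α → ℝ) : mean (fun x => f x - g x) = mean f - mean g := by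
  unfold Pool.Agent.FR.mean
  rw [Finset.sum_sub_distrib, sub_div]

theorem CORE_mul {α : Type} [Fintype α] (c : ℝ) (f : α → ℝ) : mean (fun x => c * f x) = c * mean f :=
  Pool.Agent.FR.BES_mul c f

theorem CORE_const {α : Type} [Fintype α] [Nonempty α] (c : ℝ) : mean (fun _ : α => c) = c := by
  unfold Pool.Agent.FR.mean
  have hc : (Fintype.card α : ℝ) ≠ 0 := by exact_mod_cast Fintype.card_pos.ne'
  rw [Finset.sum_const, Finset.card_univ, nsmul_eq_mul, mul_div_assoc, mul_div_cancel₀]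
  exact hc

theorem CORE_mono {α : Type} [Fintype α] {f g : α → ℝ} (h : ∀ x, f x ≤ g x) : mean f ≤ mean g := by
  unfold Pool.Agent.FR.mean
  exact div_le_div_of_nonneg_right (Finset.sum_le_sum fun x _ => h x) (Nat.cast_nonneg _)

theorem CORE_nonneg {α : Type} [Fintype α] {f : α → ℝ} (h : ∀ x, 0 ≤ f x) : 0 ≤ mean f := by
  unfold Pool.Agent.FR.mean
  exact div_nonneg (Finset.sum_nonneg fun x _ => h x) (Nat.cast_nonneg _)

theorem CORE_le {α : Type} [Fintype α] [Nonempty α] {f : α → ℝ} {c : ℝ} (h : ∀ x, f x ≤ c) : mean f ≤ c :=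
  (CORE_mono h).trans (le_of_eq (CORE_const c))

theorem CORE_prod {α β : Type} [Fintype α] [Fintype β] (f : α × β → ℝ) : mean f = mean fun x => mean fun y => f (x, y) := by
  unfold Pool.Agent.FR.mean
  rw [Fintype.sum_prod_type, ← Finset.sum_div, Fintype.card_prod, Nat.cast_mul, div_div, mul_comm (Fintype.card β : ℝ)]

theorem CORE_swap {α β : Type} [Fintype α] [Fintype β] (f : α → β → ℝ) : (mean fun x => mean fun y => f x y) = mean fun y => mean fun x => f x y := by
  unfold Pool.Agent.FR.mean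
  rw [← Finset.sum_div, ← Finset.sum_div, div_div, div_div, Finset.sum_comm, mul_comm (Fintype.card β : ℝ)]

theorem CORE_equiv {α β : Type} [Fintype α] [Fintype β] (σ : α ≃ β) (f : β → ℝ) : (mean fun x => f (σ x)) = mean f := by
  unfold Pool.Agent.FR.mean
  rw [Equiv.sum_comp σ f, Fintype.card_congr σ]

theorem CORE_cs {α : Type} [Fintype α] [Nonempty α] (u v : α → ℝ) :
    mean (fun x => u x * v x) ^ 2 ≤ mean (fun x => u x ^ 2) * mean (fun x => v x ^ 2) :=
  Pool.Agent.FR.BES_cs u v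

theorem CORE_jen {α : Type} [Fintype α] [Nonempty α] (u : α → ℝ) : mean u ^ 2 ≤ mean (fun x => u x ^ 2) := by
  have h := CORE_cs u (fun _ => 1)
  simp only [mul_one, one_pow] at h
  rw [CORE_const, mul_one] at h
  exact h

theorem CORE_abs {α : Type} [Fintype α] (u : α → ℝ) : |mean u| ≤ mean fun x => |u x| := by
  unfold Pool.Agent.FR.mean
  rw [abs_div, abs_of_nonneg (Nat.cast_nonneg (Fintype.card α) : (0 : ℝ) ≤ (Fintype.card α : ℝ))]
  exact div_le_div_of_nonneg_right (Finset.abs_sum_le_sum_abs _ _) (Nat.cast_nonneg _)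

/-- the square of a mean is a double mean -/
theorem CORE_sq {α : Type} [Fintype α] (u : α → ℝ) : mean u ^ 2 = mean fun z : α × α => u z.1 * u z.2 := by
  rw [CORE_prod]
  simp only
  have h : (fun x => mean fun y => u x * u y) = fun x => mean u * u x := by
    funext x
    rw [CORE_mul, mul_comm]
  rw [h, CORE_mul, sq]

/-- the spectral theorem on a finite type -/
theorem CORE_spe (Ξ : Type) [Fintype Ξ] [Nonempty Ξ] (K : Ξ → Ξ → ℝ) (κ : ℝ) (hκ : 0 < κ) (hK : ∀ x y, 0 ≤ K x y ∧ K x y ≤ 1 ∧ K x y = K y x) :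
    ∃ (n : ℕ) (e : Fin n → Ξ → ℝ), (n : ℝ) ≤ 1 / κ ^ 2 ∧ (∀ i l : Fin n, mean (fun x => e i x * e l x) = if i = l then 1 else 0) ∧
      ∀ g : Ξ → ℝ, (∀ i, mean (fun x => g x * e i x) = 0) → mean (fun z : Ξ × Ξ => K z.1 z.2 * g z.1 * g z.2) ≤ κ * mean (fun x => g x ^ 2) := by
  classical
  obtain ⟨σ⟩ : Nonempty (Ξ ≃ Fin (Fintype.card Ξ)) := ⟨Fintype.equivFin Ξ⟩
  obtain ⟨n, e, hn, ho, -, hb⟩ := Pool.Agent.FR.SPE (Fintype.card Ξ) (fun x y => K (σ.symm x) (σ.symm y)) κ Fintype.card_pos hκ (fun x y => hK _ _)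
  refine ⟨n, fun i x => e i (σ x), hn, ?_, ?_⟩
  · intro i l
    rw [← ho i l]
    exact CORE_equiv σ fun x => e i x * e l x
  · intro g hg
    have h1 := hb (fun x => g (σ.symm x)) (by
      intro i
      have h2 := hg i
      rw [← h2]
      have h3 := CORE_equiv σ fun x => g (σ.symm x) * e i x
      simp only [Equiv.symm_apply_apply] at h3
      exact h3.symm)
    have h4 := CORE_equiv σ fun x => g (σ.symm x) ^ 2
    simp only [Equiv.symm_apply_apply] at h4
    have h5 := CORE_equiv (σ.prodCongr σ) fun z : Fin (Fintype.card Ξ) × Fin (Fintype.card Ξ) => K (σ.symm z.1) (σ.symm z.2) * g (σ.symm z.1) * g (σ.symm z.2)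
    simp only [Equiv.prodCongr_apply, Prod.map_fst, Prod.map_snd, Equiv.symm_apply_apply] at h5
    rw [h4, h5]
    exact h1

/-- means over pairs of samples and a permutation -/
theorem CORE_perm2 {Φ : Type} [Fintype Φ] (g : Equiv.Perm Φ) (F : Φ → Φ → ℝ) : (mean fun z : Φ × Φ => F (g z.1) (g z.2)) = mean fun z : Φ × Φ => F z.1 z.2 := by
  have h := CORE_equiv (g.prodCongr g) fun z : Φ × Φ => F z.1 z.2
  simp only [Equiv.prodCongr_apply, Prod.map_fst, Prod.map_snd] at h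
  exact h

/-- **Row CORE** -/
theorem CORE (hHSI : HSI_stmt) : CORE_stmt := by
  classical
  intro Φ Ξ ρ _ _ _ _ R A g B c δ hc hc1 hA hB hδ hδR hBB hlow
  -- the kernel
  obtain ⟨K, hKdef⟩ : ∃ K : Ξ → Ξ → ℝ, K = fun x y => mean fun φ => A φ x * A φ y := ⟨_, rfl⟩
  have hK : ∀ x y, 0 ≤ K x y ∧ K x y ≤ 1 ∧ K x y = K y x := by
    intro x y
    rw [hKdef]
    refine ⟨CORE_nonneg fun φ => mul_nonneg (hA φ x).1 (hA φ y).1, CORE_le fun φ => mul_le_one₀ (hA φ x).2 (hA φ y).1 (hA φ y).2, ?_⟩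
    have e1 : (fun φ => A φ x * A φ y) = fun φ => A φ y * A φ x := by
      funext φ
      ring
    simp only [e1]
  have hκ : 0 < (c / 4) ^ 4 := by positivity
  obtain ⟨n, e, hn, ho, hq⟩ := CORE_spe Ξ K ((c / 4) ^ 4) hκ hK
  -- coefficients and projections
  obtain ⟨co, hco⟩ : ∃ co : Fin n → Φ → ℝ, ∀ i φ, co i φ = mean fun x => A φ x * e i x := ⟨_, fun _ _ => rfl⟩
  obtain ⟨p, hp⟩ : ∃ p : Φ → Ξ → ℝ, ∀ φ x, p φ x = ∑ i, co i φ * e i x := ⟨_, fun _ _ => rfl⟩
  obtain ⟨q, hqd⟩ : ∃ q : Φ → Ξ → ℝ, ∀ φ x, q φ x = A φ x - p φ x := ⟨_, fun _ _ => rfl⟩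
  have L1 : ∀ (φ : Φ) (f : Ξ → ℝ), (mean fun x => f x * p φ x) = ∑ i, co i φ * mean fun x => f x * e i x := by
    intro φ f
    have e1 : (fun x => f x * p φ x) = fun x => ∑ i, co i φ * (f x * e i x) := by
      funext x
      rw [hp, Finset.mul_sum]
      exact Finset.sum_congr rfl fun i _ => by ring
    rw [e1, Pool.Agent.FR.BES_sum]
    exact Finset.sum_congr rfl fun i _ => CORE_mul _ _
  have L2 : ∀ (φ : Φ) (l : Fin n), (mean fun x => p φ x * e l x) = co l φ := by
    intro φ l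
    have e1 : (fun x => p φ x * e l x) = fun x => e l x * p φ x := by
      funext x
      ring
    rw [e1, L1]
    have e2 : ∀ i ∈ (Finset.univ : Finset (Fin n)), co i φ * (mean fun x => e l x * e i x) = if l = i then co i φ else 0 := by
      intro i _
      rw [ho l i]
      split_ifs <;> ring
    rw [Finset.sum_congr rfl e2, Finset.sum_ite_eq, if_pos (Finset.mem_univ l)]
  have L3 : ∀ (φ : Φ) (l : Fin n), (mean fun x => q φ x * e l x) = 0 := by
    intro φ l
    have e1 : (fun x => q φ x * e l x) = fun x => A φ x * e l x - p φ x * e l x := by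
      funext x
      rw [hqd]
      ring
    rw [e1, CORE_sub, L2, hco, sub_self]
  have L4 : ∀ φ φ' : Φ, (mean fun x => q φ x * p φ' x) = 0 := by
    intro φ φ'
    rw [L1 φ' (q φ)]
    exact Finset.sum_eq_zero fun i _ => by rw [L3, mul_zero]
  have L5 : ∀ φ φ' : Φ, (mean fun x => q φ x * q φ' x) = mean fun x => q φ x * A φ' x := by
    intro φ φ'
    have e1 : (fun x => q φ x * q φ' x) = fun x => q φ x * A φ' x - q φ x * p φ' x := by
      funext x
      rw [hqd φ' x]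
      ring
    rw [e1, CORE_sub, L4, sub_zero]
  have L6 : ∀ φ : Φ, (mean fun x => A φ x ^ 2) = (mean fun x => p φ x ^ 2) + mean fun x => q φ x ^ 2 := by
    intro φ
    have e1 : (fun x => A φ x ^ 2) = fun x => (p φ x ^ 2 + q φ x ^ 2) + 2 * (q φ x * p φ x) := by
      funext x
      have h := hqd φ x
      have h2 : A φ x = p φ x + q φ x := by rw [h]; ring
      rw [h2]
      ring
    rw [e1, CORE_add, CORE_add, CORE_mul, L4, mul_zero, add_zero]
  have hA2 : ∀ φ : Φ, (mean fun x => A φ x ^ 2) ≤ 1 := fun φ => CORE_le fun x => pow_le_one₀ (hA φ x).1 (hA φ x).2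
  have hp2 : ∀ φ : Φ, (mean fun x => p φ x ^ 2) ≤ 1 := by
    intro φ
    have h1 := L6 φ
    have h2 := hA2 φ
    have h3 : 0 ≤ mean fun x => q φ x ^ 2 := CORE_nonneg fun x => sq_nonneg _
    linarith
  have hq2 : ∀ φ : Φ, (mean fun x => q φ x ^ 2) ≤ 1 := by
    intro φ
    have h1 := L6 φ
    have h2 := hA2 φ
    have h3 : 0 ≤ mean fun x => p φ x ^ 2 := CORE_nonneg fun x => sq_nonneg _
    linarith
  have hpc : ∀ φ : Φ, ∑ i, co i φ ^ 2 ≤ 1 := by
    intro φ
    have h1 : (mean fun x => p φ x ^ 2) = ∑ i, co i φ ^ 2 := by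
      have e1 : (fun x => p φ x ^ 2) = fun x => p φ x * p φ x := by
        funext x
        ring
      rw [e1, L1]
      exact Finset.sum_congr rfl fun i _ => by rw [L2, sq]
    rw [← h1]
    exact hp2 φ
  -- the key bound
  have L7 : ∀ φ : Φ, (mean fun φ' => (mean fun x => q φ x * A φ' x) ^ 2) ≤ (c / 4) ^ 4 := by
    intro φ
    have e1 : (fun φ' => (mean fun x => q φ x * A φ' x) ^ 2) = fun φ' => mean fun z : Ξ × Ξ => (q φ z.1 * A φ' z.1) * (q φ z.2 * A φ' z.2) := by
      funext φ'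
      rw [CORE_sq]
    have e2 : (fun z : Ξ × Ξ => mean fun φ' => (q φ z.1 * A φ' z.1) * (q φ z.2 * A φ' z.2)) = fun z : Ξ × Ξ => K z.1 z.2 * q φ z.1 * q φ z.2 := by
      funext z
      have e3 : (fun φ' => (q φ z.1 * A φ' z.1) * (q φ z.2 * A φ' z.2)) = fun φ' => (q φ z.1 * q φ z.2) * (A φ' z.1 * A φ' z.2) := by
        funext φ'
        ring
      rw [e3, CORE_mul, hKdef]
      ring
    rw [e1, CORE_swap, e2]
    refine (hq (q φ) (L3 φ)).trans ?_
    calc (c / 4) ^ 4 * (mean fun x => q φ x ^ 2) ≤ (c / 4) ^ 4 * 1 := mul_le_mul_of_nonneg_left (hq2 φ) hκ.le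
      _ = (c / 4) ^ 4 := mul_one _
  have Hq : (mean fun z : Φ × Φ => (mean fun x => q z.1 x * q z.2 x) ^ 2) ≤ ((c / 4) ^ 2) ^ 2 := by
    rw [CORE_prod]
    simp only
    refine CORE_le fun φ => ?_
    have e1 : (fun φ' => (mean fun x => q φ x * q φ' x) ^ 2) = fun φ' => (mean fun x => q φ x * A φ' x) ^ 2 := by
      funext φ'
      rw [L5]
    rw [e1]
    refine (L7 φ).trans (le_of_eq ?_)
    ring
  have HA : (mean fun z : Φ × Φ => (mean fun x => A z.1 x * A z.2 x) ^ 2) ≤ (1 : ℝ) ^ 2 := by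
    refine CORE_le fun z => ?_
    refine (CORE_cs _ _).trans ?_
    rw [one_pow]
    exact mul_le_one₀ (hA2 _) (CORE_nonneg fun x => sq_nonneg _) (hA2 _)
  have Hp : (mean fun z : Φ × Φ => (mean fun x => p z.1 x * p z.2 x) ^ 2) ≤ (1 : ℝ) ^ 2 := by
    refine CORE_le fun z => ?_
    refine (CORE_cs _ _).trans ?_
    rw [one_pow]
    exact mul_le_one₀ (hp2 _) (CORE_nonneg fun x => sq_nonneg _) (hp2 _)
  have hc4 : √((c / 4) ^ 2 * 1) = c / 4 := by
    rw [mul_one, Real.sqrt_sq (by positivity)]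
  have hc4' : √(1 * (c / 4) ^ 2) = c / 4 := by
    rw [one_mul, Real.sqrt_sq (by positivity)]
  -- lower bound for the coefficients
  obtain ⟨be, hbe⟩ : ∃ be : ρ → Fin n → Fin n → ℝ, ∀ r i j, be r i j = mean fun z : Ξ × Ξ => (e i z.1 * e j z.2) * B r z := ⟨_, fun _ _ _ => rfl⟩
  have hmain : ∀ r ∈ R, c ^ 2 / 4 ≤ ∑ i, ∑ j, be r i j ^ 2 := by
    intro r hr
    have i1 := hHSI Φ Ξ (fun φ => q (g r φ)) A (B r) ((c / 4) ^ 2) 1 (by positivity) zero_le_one (hB r hr)
      (by rw [CORE_perm2 (g r) fun φ φ' => (mean fun x => q φ x * q φ' x) ^ 2]; exact Hq) HA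
    have i2 := hHSI Φ Ξ (fun φ => p (g r φ)) q (B r) 1 ((c / 4) ^ 2) zero_le_one (by positivity) (hB r hr)
      (by rw [CORE_perm2 (g r) fun φ φ' => (mean fun x => p φ x * p φ' x) ^ 2]; exact Hp) Hq
    rw [hc4] at i1
    rw [hc4'] at i2
    have i3 := hlow r hr
    -- decomposition
    have i4 : (mean fun φ => mean fun z : Ξ × Ξ => A (g r φ) z.1 * A φ z.2 * B r z) =
        ((mean fun φ => mean fun z : Ξ × Ξ => q (g r φ) z.1 * A φ z.2 * B r z) + mean fun φ => mean fun z : Ξ × Ξ => p (g r φ) z.1 * q φ z.2 * B r z) +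
          mean fun φ => mean fun z : Ξ × Ξ => p (g r φ) z.1 * p φ z.2 * B r z := by
      rw [← CORE_add, ← CORE_add]
      congr 1
      funext φ
      rw [← CORE_add, ← CORE_add]
      congr 1
      funext z
      rw [hqd, hqd]
      ring
    -- the main part
    have i5 : (mean fun φ => mean fun z : Ξ × Ξ => p (g r φ) z.1 * p φ z.2 * B r z) = ∑ i, ∑ j, (mean fun φ => co i (g r φ) * co j φ) * be r i j := by
      have e1 : ∀ φ, (mean fun z : Ξ × Ξ => p (g r φ) z.1 * p φ z.2 * B r z) = ∑ i, ∑ j, be r i j * (co i (g r φ) * co j φ) := by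
        intro φ
        have e2 : (fun z : Ξ × Ξ => p (g r φ) z.1 * p φ z.2 * B r z) = fun z => ∑ i, ∑ j, (co i (g r φ) * co j φ) * ((e i z.1 * e j z.2) * B r z) := by
          funext z
          rw [hp, hp, Finset.sum_mul_sum, Finset.sum_mul]
          refine Finset.sum_congr rfl fun i _ => ?_
          rw [Finset.sum_mul]
          exact Finset.sum_congr rfl fun j _ => by ring
        rw [e2, Pool.Agent.FR.BES_sum]
        refine Finset.sum_congr rfl fun i _ => ?_
        rw [Pool.Agent.FR.BES_sum]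
        refine Finset.sum_congr rfl fun j _ => ?_
        rw [CORE_mul, hbe, mul_comm]
      have e3 : (fun φ => mean fun z : Ξ × Ξ => p (g r φ) z.1 * p φ z.2 * B r z) = fun φ => ∑ i, ∑ j, be r i j * (co i (g r φ) * co j φ) := by
        funext φ
        exact e1 φ
      rw [e3, Pool.Agent.FR.BES_sum]
      refine Finset.sum_congr rfl fun i _ => ?_
      rw [Pool.Agent.FR.BES_sum]
      refine Finset.sum_congr rfl fun j _ => ?_
      rw [CORE_mul, mul_comm]
    have i6 : c / 2 ≤ |∑ i, ∑ j, (mean fun φ => co i (g r φ) * co j φ) * be r i j| := by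
      rw [← i5]
      rw [i4] at i3
      have t1 := abs_add_le ((mean fun φ => mean fun z : Ξ × Ξ => q (g r φ) z.1 * A φ z.2 * B r z) + mean fun φ => mean fun z : Ξ × Ξ => p (g r φ) z.1 * q φ z.2 * B r z)
        (mean fun φ => mean fun z : Ξ × Ξ => p (g r φ) z.1 * p φ z.2 * B r z)
      have t2 := abs_add_le (mean fun φ => mean fun z : Ξ × Ξ => q (g r φ) z.1 * A φ z.2 * B r z) (mean fun φ => mean fun z : Ξ × Ξ => p (g r φ) z.1 * q φ z.2 * B r z)
      linarith
    -- Cauchy-Schwarz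
    have i7 : ∑ i, ∑ j, (mean fun φ => co i (g r φ) * co j φ) ^ 2 ≤ 1 := by
      have e1 : ∀ i j : Fin n, (mean fun φ => co i (g r φ) * co j φ) ^ 2 ≤ mean fun φ => co i (g r φ) ^ 2 * co j φ ^ 2 := by
        intro i j
        refine (CORE_jen _).trans (le_of_eq ?_)
        congr 1
        funext φ
        ring
      calc ∑ i, ∑ j, (mean fun φ => co i (g r φ) * co j φ) ^ 2 ≤ ∑ i, ∑ j, mean fun φ => co i (g r φ) ^ 2 * co j φ ^ 2 :=
            Finset.sum_le_sum fun i _ => Finset.sum_le_sum fun j _ => e1 i j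
        _ = mean fun φ => ∑ i, ∑ j, co i (g r φ) ^ 2 * co j φ ^ 2 := by
            rw [Pool.Agent.FR.BES_sum]
            refine Finset.sum_congr rfl fun i _ => ?_
            rw [Pool.Agent.FR.BES_sum]
        _ ≤ 1 := by
            refine CORE_le fun φ => ?_
            rw [← Finset.sum_mul_sum]
            exact mul_le_one₀ (hpc _) (Finset.sum_nonneg fun j _ => sq_nonneg _) (hpc _)
    have i8 : (∑ i, ∑ j, (mean fun φ => co i (g r φ) * co j φ) * be r i j) ^ 2 ≤ (∑ i, ∑ j, (mean fun φ => co i (g r φ) * co j φ) ^ 2) * ∑ i, ∑ j, be r i j ^ 2 := by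
      have h := Finset.sum_mul_sq_le_sq_mul_sq (Finset.univ : Finset (Fin n × Fin n)) (fun z => mean fun φ => co z.1 (g r φ) * co z.2 φ) (fun z => be r z.1 z.2)
      rw [Fintype.sum_prod_type, Fintype.sum_prod_type, Fintype.sum_prod_type] at h
      exact h
    have i9 : 0 ≤ ∑ i, ∑ j, be r i j ^ 2 := Finset.sum_nonneg fun i _ => Finset.sum_nonneg fun j _ => sq_nonneg _
    have i10 : (c / 2) ^ 2 ≤ (∑ i, ∑ j, (mean fun φ => co i (g r φ) * co j φ) * be r i j) ^ 2 := by
      rw [← sq_abs (∑ i, ∑ j, (mean fun φ => co i (g r φ) * co j φ) * be r i j)]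
      exact pow_le_pow_left₀ (by positivity) i6 2
    calc c ^ 2 / 4 = (c / 2) ^ 2 := by ring
      _ ≤ (∑ i, ∑ j, (mean fun φ => co i (g r φ) * co j φ) ^ 2) * ∑ i, ∑ j, be r i j ^ 2 := i10.trans i8
      _ ≤ 1 * ∑ i, ∑ j, be r i j ^ 2 := mul_le_mul_of_nonneg_right i7 i9
      _ = ∑ i, ∑ j, be r i j ^ 2 := one_mul _
  -- Bessel
  have hbes : ∀ i j : Fin n, ∑ r ∈ R, be r i j ^ 2 ≤ 2 := by
    intro i j
    have h := Pool.Agent.FR.BES (Ξ × Ξ) ρ R B (fun z => e i z.1 * e j z.2) δ hδ hδR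
      (by
        have e1 : (fun z : Ξ × Ξ => (e i z.1 * e j z.2) ^ 2) = fun z => (e i z.1 * e i z.1) * (e j z.2 * e j z.2) := by
          funext z
          ring
        rw [e1, CORE_prod]
        simp only
        have e2 : (fun x => mean fun y => (e i x * e i x) * (e j y * e j y)) = fun x => e i x * e i x := by
          funext x
          rw [CORE_mul, ho j j, if_pos rfl, mul_one]
        rw [e2, ho i i, if_pos rfl])
      (fun r hr => CORE_le fun z => by
        have := abs_le.mp (hB r hr z)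
        nlinarith)
      hBB
    refine le_trans (le_of_eq (Finset.sum_congr rfl fun r _ => ?_)) h
    rw [hbe]
  have hcount : (#R : ℝ) * (c ^ 2 / 4) ≤ 2 * (n : ℝ) ^ 2 := by
    calc (#R : ℝ) * (c ^ 2 / 4) = ∑ _r ∈ R, c ^ 2 / 4 := by rw [Finset.sum_const, nsmul_eq_mul]
      _ ≤ ∑ r ∈ R, ∑ i, ∑ j, be r i j ^ 2 := Finset.sum_le_sum hmain
      _ = ∑ i, ∑ j, ∑ r ∈ R, be r i j ^ 2 := by
        rw [Finset.sum_comm]
        refine Finset.sum_congr rfl fun i _ => ?_
        rw [Finset.sum_comm]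
      _ ≤ ∑ _i : Fin n, ∑ _j : Fin n, (2 : ℝ) := Finset.sum_le_sum fun i _ => Finset.sum_le_sum fun j _ => hbes i j
      _ = 2 * (n : ℝ) ^ 2 := by
        simp only [Finset.sum_const, Finset.card_univ, Fintype.card_fin, nsmul_eq_mul]
        ring
  have hn2 : (n : ℝ) ^ 2 ≤ (1 / ((c / 4) ^ 4) ^ 2) ^ 2 := pow_le_pow_left₀ (Nat.cast_nonneg n) hn 2
  have hfin : (1 / ((c / 4) ^ 4) ^ 2) ^ 2 = 2 ^ 32 / c ^ 16 := by
    field_simp
    norm_num
  rw [hfin] at hn2
  rw [le_div_iff₀ (by positivity)]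
  have h5 : (#R : ℝ) * c ^ 18 = ((#R : ℝ) * (c ^ 2 / 4)) * (4 * c ^ 16) := by ring
  rw [h5]
  calc ((#R : ℝ) * (c ^ 2 / 4)) * (4 * c ^ 16) ≤ (2 * (2 ^ 32 / c ^ 16)) * (4 * c ^ 16) :=
        mul_le_mul_of_nonneg_right (hcount.trans (by linarith)) (by positivity)
    _ = 2 ^ 35 := by
      have : c ^ 16 ≠ 0 := by positivity
      field_simp
      norm_num

end Pool.Agent.DP
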